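import Pool.Agent.Helper34.DS.Lanes
import Pool.Agent.Helper79.DS.Cell
import Pool.Agent.Helper56.DS.Turn
import Pool.Agent.Helper51.DS.ListLane
import Pool.Agent.Helper21.DS.Scat
import Pool.Agent.Helper77.G.ScatSt

/-!
Theorem SCAT of D* for MP_5165fa, unconditional.
-/

open Set BIC

namespace BICS

universe u

theorem lanesStmt (k q s : ℕ) (hk : 1 ≤ k) (hq : 2 ≤ q) (hs : 1 ≤ s) (hkq : k + s ≤ q) :
    LanesStmt.{u} k q s :=
  lanes_of k q s hk (by omega) (C79.cellStmt hq hs hkq) (fun w hw _ => turnStmt k w hw) listStmt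

theorem scatStmt (k s : ℕ) (hk : 1 ≤ k) (hs : 1 ≤ s) : ScatStmt.{u} k s :=
  scat_of k s (C1Q.Q0 (2 ^ (2 * k)) + k + s + 2) hk (by omega)
    (lanesStmt k _ s hk (by omega) hs (by omega)) stStmt

end BICS
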