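import Pool.Agent.Helper47.DS.Defs

/-!
Row GEO-C of Theorem D* for MP_5165fa: the lanes on a board of cells, from one cell, one turn and
the conversion of lists.
-/

open Set BIC

namespace BICS

universe u

section pieces

variable {k q : ℕ}

lemma isPth_map {l : List (ℕ × ℕ)} (hl : IsPth l) {Q : Set (ℕ × ℕ)} (hQ : ∀ v ∈ l, v ∈ Q)
    {φ : ℕ × ℕ → ℕ × ℕ} (h1 : ∀ u ∈ Q, ∀ v ∈ Q, adj u v → adj (φ u) (φ v)) (h2 : InjOn φ Q) :
    IsPth (l.map φ) := by
  refine ⟨?_, ?_⟩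
  · rw [List.isChain_map]
    exact hl.1.imp_of_mem_imp fun a b ha hb hab => h1 a (hQ a ha) b (hQ b hb) hab
  · exact List.Nodup.map_on (fun x hx y hy hxy => h2 (hQ x hx) (hQ y hy) hxy) hl.2

lemma zone_map {z : List (ℕ × ℕ)} {t t' : Set (ℕ × ℕ)} (hz : Zone q z t) {Q : Set (ℕ × ℕ)}
    (hQ : ∀ v ∈ z, v ∈ Q) {φ : ℕ × ℕ → ℕ × ℕ}
    (h1 : ∀ u ∈ Q, ∀ v ∈ Q, adj u v → adj (φ u) (φ v)) (ht : ∀ v ∈ t', ∃ u ∈ t, φ u = v) :
    Zone q (z.map φ) t' := by
  refine ⟨?_, ?_, ?_⟩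
  · intro j hj
    obtain ⟨p, r, h3, h4, h5⟩ := hz.1 j hj
    refine ⟨φ p, φ r, by rw [List.getElem?_map, h3]; rfl, by rw [List.getElem?_map, h4]; rfl, ?_⟩
    exact h1 p (hQ p (List.mem_of_getElem? h3)) r (hQ r (List.mem_of_getElem? h4)) h5
  · rw [List.length_map]
    exact hz.2.1
  · intro v hv
    obtain ⟨u, hu, rfl⟩ := ht v hv
    rw [← List.map_drop]
    exact List.mem_map.2 ⟨u, hz.2.2 u hu, rfl⟩

lemma laneL_append {l : List (ℕ × ℕ)} {ts : List (Set (ℕ × ℕ))} (h : LaneL q l ts)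
    (p : List (ℕ × ℕ)) : LaneL q (l ++ p) ts := by
  cases h with
  | nil l => exact LaneL.nil _
  | snoc h1 h2 =>
    rw [List.append_assoc]
    exact LaneL.snoc h1 h2

lemma pth_join {l f : List (ℕ × ℕ)} {e : ℕ × ℕ} (hl : IsPth l) (hf : IsPth f)
    (hle : ∀ u ∈ l.getLast?, adj u e) (hfe : f.head? = some e) (hd : ∀ v ∈ l, v ∉ f) :
    IsPth (l ++ f) := by
  refine ⟨?_, ?_⟩
  · rw [List.isChain_append]
    refine ⟨hl.1, hf.1, ?_⟩
    intro u hu v hv
    rw [hfe, Option.mem_some_iff] at hv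
    rw [← hv]
    exact hle u hu
  · rw [List.nodup_append]
    refine ⟨hl.2, hf.2, ?_⟩
    rintro a ha b hb rfl
    exact hd a ha hb

lemma last_join {l f : List (ℕ × ℕ)} {e : ℕ × ℕ} (hfe : f.head? = some e) {u : ℕ × ℕ}
    (hu : u ∈ (l ++ f).getLast?) : u ∈ f.getLast? := by
  cases f with
  | nil => simp at hfe
  | cons a f => rwa [List.getLast?_append_of_ne_nil _ (by simp)] at hu

/-- The state of the construction: `R` the region used so far, `P` the processed cells, `E h` the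
next vertex of lane `h`. -/
def Sta (k q : ℕ) (B : Set (ℕ × ℕ)) (τ : ℕ × ℕ → Set (ℕ × ℕ)) (g : ℕ × ℕ → Option (Fin k))
    (R P : Set (ℕ × ℕ)) (E : Fin k → ℕ × ℕ) : Prop :=
  (∀ c ∈ P, τ c ⊆ R) ∧ ∃ (l : Fin k → List (ℕ × ℕ)) (cs : Fin k → List (ℕ × ℕ)),
    (∀ h, IsPth (l h)) ∧ (∀ h, ∀ v ∈ l h, v ∈ R ∧ v ∈ B) ∧
    (∀ h, ∀ u ∈ (l h).getLast?, adj u (E h)) ∧
    (∀ h h', h ≠ h' → (l h).Disjoint (l h')) ∧ (∀ h, LaneL q (l h) ((cs h).map τ)) ∧
    (∀ h, (cs h).Nodup ∧ ∀ c, c ∈ cs h ↔ c ∈ P ∧ g c = some h) ∧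
    ∀ c ∈ P, g c = none → ∀ h, ∀ v ∈ l h, v ∉ τ c

variable {B : Set (ℕ × ℕ)} {τ : ℕ × ℕ → Set (ℕ × ℕ)} {g : ℕ × ℕ → Option (Fin k)}
  {R P : Set (ℕ × ℕ)} {E E' : Fin k → ℕ × ℕ}

lemma Sta.mono (hs : Sta k q B τ g R P E) {R' : Set (ℕ × ℕ)} (h : R ⊆ R') :
    Sta k q B τ g R' P E := by
  obtain ⟨h0, l, cs, h1, h2, h3⟩ := hs
  exact ⟨fun c hc => (h0 c hc).trans h, l, cs, h1, fun a v hv => ⟨h (h2 a v hv).1, (h2 a v hv).2⟩,
    h3⟩

lemma Sta.congr (hs : Sta k q B τ g R P E) {P' : Set (ℕ × ℕ)} (h : P = P')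
    (hE : ∀ h, E h = E' h) : Sta k q B τ g R P' E' := by
  have : E = E' := funext hE
  rw [← h, ← this]
  exact hs

/-- a piece without a cell -/
lemma Sta.turn (hs : Sta k q B τ g R P E) {Q : Set (ℕ × ℕ)} (hQR : ∀ v ∈ R, v ∉ Q) (hQB : Q ⊆ B)
    {f : Fin k → List (ℕ × ℕ)} (hf1 : ∀ h, IsPth (f h)) (hf2 : ∀ h, (f h).head? = some (E h))
    (hf3 : ∀ h, ∀ v ∈ f h, v ∈ Q) (hf4 : ∀ h h', h ≠ h' → (f h).Disjoint (f h'))
    (hf5 : ∀ h, ∀ u ∈ (f h).getLast?, adj u (E' h)) : Sta k q B τ g (R ∪ Q) P E' := by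
  obtain ⟨h0, l, cs, h1, h2, h3, h4, h5, h6, h7⟩ := hs
  refine ⟨fun c hc => (h0 c hc).trans subset_union_left, fun h => l h ++ f h, cs, ?_, ?_, ?_, ?_,
    fun h => laneL_append (h5 h) _, h6, ?_⟩
  · intro h
    exact pth_join (h1 h) (hf1 h) (h3 h) (hf2 h) fun v hv hv' =>
      hQR v (h2 h v hv).1 (hf3 h v hv')
  · intro h v hv
    rcases List.mem_append.1 hv with hv | hv
    · exact ⟨Or.inl (h2 h v hv).1, (h2 h v hv).2⟩
    · exact ⟨Or.inr (hf3 h v hv), hQB (hf3 h v hv)⟩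
  · intro h u hu
    exact hf5 h u (last_join (hf2 h) hu)
  · intro h h' hne v hv hv'
    rcases List.mem_append.1 hv with hv | hv <;> rcases List.mem_append.1 hv' with hv' | hv'
    · exact h4 h h' hne hv hv'
    · exact hQR v (h2 h v hv).1 (hf3 h' v hv')
    · exact hQR v (h2 h' v hv').1 (hf3 h v hv)
    · exact hf4 h h' hne hv hv'
  · intro c hc hg h v hv hv'
    rcases List.mem_append.1 hv with hv | hv
    · exact h7 c hc hg h v hv hv'
    · exact hQR v (h0 c hc hv') (hf3 h v hv)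

/-- a piece through the cell `c` -/
lemma Sta.cell (hs : Sta k q B τ g R P E) {Q : Set (ℕ × ℕ)} (hQR : ∀ v ∈ R, v ∉ Q) (hQB : Q ⊆ B)
    {f : Fin k → List (ℕ × ℕ)} (hf1 : ∀ h, IsPth (f h)) (hf2 : ∀ h, (f h).head? = some (E h))
    (hf3 : ∀ h, ∀ v ∈ f h, v ∈ Q) (hf4 : ∀ h h', h ≠ h' → (f h).Disjoint (f h'))
    (hf5 : ∀ h, ∀ u ∈ (f h).getLast?, adj u (E' h)) {c : ℕ × ℕ} (hc : c ∉ P) (hcQ : τ c ⊆ Q)
    (hf6 : ∀ h, g c ≠ some h → ∀ v ∈ f h, v ∉ τ c)
    (hf7 : ∀ h, g c = some h → ∃ p z p', f h = p ++ z ++ p' ∧ Zone q z (τ c)) :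
    Sta k q B τ g (R ∪ Q) (insert c P) E' := by
  classical
  obtain ⟨h0, l, cs, h1, h2, h3, h4, h5, h6, h7⟩ := hs
  refine ⟨?_, fun h => l h ++ f h, fun h => if g c = some h then cs h ++ [c] else cs h,
    ?_, ?_, ?_, ?_, ?_, ?_, ?_⟩
  · intro c' hc'
    rcases hc' with rfl | hc'
    · exact hcQ.trans subset_union_right
    · exact (h0 c' hc').trans subset_union_left
  · intro h
    exact pth_join (h1 h) (hf1 h) (h3 h) (hf2 h) fun v hv hv' =>
      hQR v (h2 h v hv).1 (hf3 h v hv')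
  · intro h v hv
    rcases List.mem_append.1 hv with hv | hv
    · exact ⟨Or.inl (h2 h v hv).1, (h2 h v hv).2⟩
    · exact ⟨Or.inr (hf3 h v hv), hQB (hf3 h v hv)⟩
  · intro h u hu
    exact hf5 h u (last_join (hf2 h) hu)
  · intro h h' hne v hv hv'
    rcases List.mem_append.1 hv with hv | hv <;> rcases List.mem_append.1 hv' with hv' | hv'
    · exact h4 h h' hne hv hv'
    · exact hQR v (h2 h v hv).1 (hf3 h' v hv')
    · exact hQR v (h2 h' v hv').1 (hf3 h v hv)
    · exact hf4 h h' hne hv hv'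
  · intro h
    simp only
    split_ifs with hg
    · obtain ⟨p, z, p', h8, h9⟩ := hf7 h hg
      rw [h8, List.map_append, List.map_singleton]
      have e : l h ++ (p ++ z ++ p') = l h ++ p ++ z ++ p' := by
        simp only [List.append_assoc]
      rw [e]
      exact LaneL.snoc (laneL_append (h5 h) p) h9
    · exact laneL_append (h5 h) _
  · intro h
    simp only
    obtain ⟨h8, h9⟩ := h6 h
    split_ifs with hg
    · refine ⟨?_, ?_⟩
      · rw [List.nodup_append]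
        refine ⟨h8, List.nodup_singleton c, ?_⟩
        rintro a ha b hb rfl
        rw [List.mem_singleton] at hb
        rw [hb] at ha
        exact hc ((h9 c).1 ha).1
      · intro c'
        rw [List.mem_append, List.mem_singleton, h9 c']
        constructor
        · rintro (h10 | rfl)
          · exact ⟨Or.inr h10.1, h10.2⟩
          · exact ⟨Or.inl rfl, hg⟩
        · rintro ⟨rfl | h10, h11⟩
          · exact Or.inr rfl
          · exact Or.inl ⟨h10, h11⟩
    · refine ⟨h8, ?_⟩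
      intro c'
      rw [h9 c']
      constructor
      · rintro ⟨h10, h11⟩
        exact ⟨Or.inr h10, h11⟩
      · rintro ⟨rfl | h10, h11⟩
        · exact absurd h11 hg
        · exact ⟨h10, h11⟩
  · intro c' hc' hg h v hv hv'
    rcases hc' with rfl | hc' <;> rcases List.mem_append.1 hv with hv | hv
    · exact hQR v (h2 h v hv).1 (hcQ hv')
    · exact hf6 h (by rw [hg]; simp) v hv hv'
    · exact h7 c' hc' hg h v hv hv'
    · exact hQR v (h0 c' hc' hv') (hf3 h v hv)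

/-- a piece without a cell, in a chart -/
lemma Sta.turnChart {w : ℕ} {lt : Fin k → List (ℕ × ℕ)}
    (hlt : ∀ h, IsPth (lt h) ∧ (lt h).head? = some (0, (h : ℕ)) ∧
      (lt h).getLast? = some (0, w + (k - 1 - (h : ℕ))) ∧ ∀ v ∈ lt h, v ∈ rect 0 0 k (2 * w))
    (hltd : ∀ h h', h ≠ h' → (lt h).Disjoint (lt h')) {σ : Fin k → Fin k}
    (hσ : Function.Injective σ) {φ : ℕ × ℕ → ℕ × ℕ}
    (h1 : ∀ u ∈ rect 0 0 k (2 * w), ∀ v ∈ rect 0 0 k (2 * w), adj u v → adj (φ u) (φ v))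
    (h2 : InjOn φ (rect 0 0 k (2 * w))) {Q : Set (ℕ × ℕ)}
    (h3 : ∀ u ∈ rect 0 0 k (2 * w), φ u ∈ Q) (hs : Sta k q B τ g R P E)
    (hQR : ∀ v ∈ R, v ∉ Q) (hQB : Q ⊆ B) (hE : ∀ h, E h = φ (0, (σ h : ℕ)))
    (hE' : ∀ h, adj (φ (0, w + (k - 1 - (σ h : ℕ)))) (E' h)) :
    Sta k q B τ g (R ∪ Q) P E' := by
  refine hs.turn hQR hQB (f := fun h => (lt (σ h)).map φ) ?_ ?_ ?_ ?_ ?_
  · intro h
    exact isPth_map (hlt (σ h)).1 (hlt (σ h)).2.2.2 h1 h2
  · intro h
    rw [List.head?_map, (hlt (σ h)).2.1, hE]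
    rfl
  · intro h v hv
    obtain ⟨u, hu, rfl⟩ := List.mem_map.1 hv
    exact h3 u ((hlt (σ h)).2.2.2 u hu)
  · intro h h' hne v hv hv'
    obtain ⟨u, hu, rfl⟩ := List.mem_map.1 hv
    obtain ⟨u', hu', huu⟩ := List.mem_map.1 hv'
    have := h2 ((hlt (σ h')).2.2.2 u' hu') ((hlt (σ h)).2.2.2 u hu) huu
    rw [this] at hu'
    exact hltd _ _ (fun he => hne (hσ he)) hu hu'
  · intro h u hu
    rw [List.getLast?_map, (hlt (σ h)).2.2.1] at hu
    have hu' : φ (0, w + (k - 1 - (σ h : ℕ))) = u := by simpa using hu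
    rw [← hu']
    exact hE' h

/-- a piece through a cell, in a chart -/
lemma Sta.cellChart {w o o' s : ℕ} {lc : Fin k → List (ℕ × ℕ)} {g0 : Option (Fin k)}
    (hlc : ∀ h, IsPth (lc h) ∧ (lc h).head? = some (0, (h : ℕ)) ∧
      (lc h).getLast? = some (w - 1, (h : ℕ)) ∧ ∀ v ∈ lc h, v ∈ rect 0 0 w w)
    (hlcd : ∀ h h', h ≠ h' → (lc h).Disjoint (lc h'))
    (hlc1 : ∀ h, g0 ≠ some h → ∀ v ∈ lc h, v ∉ rect o o' s s)
    (hlc2 : ∀ h, g0 = some h → ∃ p z p', lc h = p ++ z ++ p' ∧ Zone q z (rect o o' s s))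
    {σ : Fin k → Fin k} (hσ : Function.Injective σ) {c : ℕ × ℕ}
    (hg0 : ∀ h, g c = some h ↔ g0 = some (σ h)) {φ : ℕ × ℕ → ℕ × ℕ}
    (h1 : ∀ u ∈ rect 0 0 w w, ∀ v ∈ rect 0 0 w w, adj u v → adj (φ u) (φ v))
    (h2 : InjOn φ (rect 0 0 w w)) {Q : Set (ℕ × ℕ)}
    (h3 : ∀ u ∈ rect 0 0 w w, φ u ∈ Q) (hs : Sta k q B τ g R P E)
    (hQR : ∀ v ∈ R, v ∉ Q) (hQB : Q ⊆ B) (hE : ∀ h, E h = φ (0, (σ h : ℕ)))
    (hE' : ∀ h, adj (φ (w - 1, (σ h : ℕ))) (E' h)) (hc : c ∉ P) (hcQ : τ c ⊆ Q)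
    (hτ : ∀ v ∈ τ c, ∃ u ∈ rect o o' s s, φ u = v)
    (hτ' : ∀ u ∈ rect 0 0 w w, φ u ∈ τ c → u ∈ rect o o' s s) :
    Sta k q B τ g (R ∪ Q) (insert c P) E' := by
  refine hs.cell hQR hQB (f := fun h => (lc (σ h)).map φ) ?_ ?_ ?_ ?_ ?_ hc hcQ ?_ ?_
  · intro h
    exact isPth_map (hlc (σ h)).1 (hlc (σ h)).2.2.2 h1 h2
  · intro h
    rw [List.head?_map, (hlc (σ h)).2.1, hE]
    rfl
  · intro h v hv
    obtain ⟨u, hu, rfl⟩ := List.mem_map.1 hv
    exact h3 u ((hlc (σ h)).2.2.2 u hu)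
  · intro h h' hne v hv hv'
    obtain ⟨u, hu, rfl⟩ := List.mem_map.1 hv
    obtain ⟨u', hu', huu⟩ := List.mem_map.1 hv'
    have := h2 ((hlc (σ h')).2.2.2 u' hu') ((hlc (σ h)).2.2.2 u hu) huu
    rw [this] at hu'
    exact hlcd _ _ (fun he => hne (hσ he)) hu hu'
  · intro h u hu
    rw [List.getLast?_map, (hlc (σ h)).2.2.1] at hu
    have hu' : φ (w - 1, (σ h : ℕ)) = u := by simpa using hu
    rw [← hu']
    exact hE' h
  · intro h hg v hv hv'
    obtain ⟨u, hu, rfl⟩ := List.mem_map.1 hv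
    exact hlc1 (σ h) (fun he => hg ((hg0 h).2 he)) u hu (hτ' u ((hlc (σ h)).2.2.2 u hu) hv')
  · intro h hg
    obtain ⟨p, z, p', h4, h5⟩ := hlc2 (σ h) ((hg0 h).1 hg)
    refine ⟨p.map φ, z.map φ, p'.map φ, ?_, ?_⟩
    · rw [h4, List.map_append, List.map_append]
    · refine zone_map h5 (Q := rect 0 0 w w) ?_ h1 hτ
      intro v hv
      refine (hlc (σ h)).2.2.2 v ?_
      rw [h4]
      simp [hv]

end pieces

section board

variable {k q : ℕ} {x y w t a b m : ℕ} {g : ℕ × ℕ → Option (Fin k)}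

/-- region used in an even band -/
def Re (x y k w a b : ℕ) : Set (ℕ × ℕ) := {v | v.2 < y + a ∨ (v.2 < y + a + w ∧ v.1 < x + k + b)}

/-- region used in an odd band -/
def Ro (x y k w t a b : ℕ) : Set (ℕ × ℕ) :=
  {v | v.2 < y + a ∨ (v.2 < y + a + w ∧ x + k + t ≤ v.1 + b)}

/-- processed cells in an even band -/
def Pe (T X Y : ℕ) : Set (ℕ × ℕ) := {c | (c.1 < T ∧ c.2 < Y) ∨ (c.1 < X ∧ c.2 = Y)}

/-- processed cells in an odd band -/
def Po (T X Y : ℕ) : Set (ℕ × ℕ) := {c | (c.1 < T ∧ c.2 < Y) ∨ (c.1 < T ∧ T ≤ c.1 + X ∧ c.2 = Y)}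

lemma adj_shift {X Y : ℕ} {u v : ℕ × ℕ} (h : adj u v) :
    adj (X + u.1, Y + u.2) (X + v.1, Y + v.2) := by
  unfold adj at *
  simp only
  omega

lemma adj_mirror {X Y W : ℕ} {u v : ℕ × ℕ} (hu : u.1 ≤ W) (hv : v.1 ≤ W) (h : adj u v) :
    adj (X + (W - u.1), Y + u.2) (X + (W - v.1), Y + v.2) := by
  unfold adj at *
  simp only
  omega

/-- the turn at the right end -/
lemma turn_right {τ : ℕ × ℕ → Set (ℕ × ℕ)} {T Y : ℕ} {lt : Fin k → List (ℕ × ℕ)}
    (hlt : ∀ h, IsPth (lt h) ∧ (lt h).head? = some (0, (h : ℕ)) ∧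
      (lt h).getLast? = some (0, w + (k - 1 - (h : ℕ))) ∧ ∀ v ∈ lt h, v ∈ rect 0 0 k (2 * w))
    (hltd : ∀ h h', h ≠ h' → (lt h).Disjoint (lt h')) (hk : 1 ≤ k) (hkw : 2 * k ≤ w)
    (hm : (T + 1) * w ≤ m) (hY : Y + 2 ≤ T)
    (hs : Sta k q (rect x y m m) τ g (Re x y k w (Y * w) (T * w)) (Pe T T Y)
      (fun h => (x + k + T * w, y + Y * w + (h : ℕ)))) :
    Sta k q (rect x y m m) τ g (Ro x y k w (T * w) ((Y + 1) * w) 0) (Po T 0 (Y + 1))
      (fun h => (x + k + T * w - 1, y + (Y + 1) * w + (k - 1 - (h : ℕ)))) := by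
  have hYT : (Y + 2) * w ≤ T * w := Nat.mul_le_mul_right _ hY
  rw [add_mul] at hYT
  rw [add_mul, one_mul] at hm ⊢
  have key := hs.turnChart hlt hltd (σ := id) Function.injective_id
    (φ := fun v => (x + k + T * w + v.1, y + Y * w + v.2))
    (Q := rect (x + k + T * w) (y + Y * w) k (2 * w))
    (E' := fun h => (x + k + T * w - 1, y + (Y * w + w) + (k - 1 - (h : ℕ))))
    (fun u _ v _ h => adj_shift h)
    (by
      rintro ⟨u1, u2⟩ _ ⟨v1, v2⟩ _ h
      simp only [Prod.mk.injEq] at h ⊢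
      omega)
    (by
      rintro ⟨u1, u2⟩ ⟨h1, h2, h3, h4⟩
      simp only at h1 h2 h3 h4
      exact ⟨by simp only; omega, by simp only; omega, by simp only; omega, by simp only; omega⟩)
    (by
      rintro ⟨v1, v2⟩ h ⟨h1, h2, h3, h4⟩
      simp only at h1 h2 h3 h4
      rcases h with h | ⟨h, h'⟩ <;> simp only at h
      · omega
      · simp only at h'
        omega)
    (rect_sub (by omega) (by omega) (by omega) (by omega))
    (by intro h; simp)
    (by
      intro h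
      unfold adj
      simp only [id]
      omega)
  refine (key.mono ?_).congr ?_ ?_
  · rintro ⟨v1, v2⟩ (h | ⟨h1, h2, h3, h4⟩)
    · rcases h with h | ⟨h, h'⟩ <;> simp only at h
      · exact Or.inl (by simp only; omega)
      · exact Or.inl (by simp only; omega)
    · simp only at h1 h2 h3 h4
      rcases Nat.lt_or_ge v2 (y + (Y * w + w)) with h5 | h5
      · exact Or.inl h5
      · exact Or.inr ⟨by simp only; omega, by simp only; omega⟩
  · ext ⟨c1, c2⟩
    simp only [Pe, Po, Set.mem_ofPred_eq]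
    omega
  · intro h
    rfl

/-- the turn at the left end -/
lemma turn_left {τ : ℕ × ℕ → Set (ℕ × ℕ)} {T Y : ℕ} {lt : Fin k → List (ℕ × ℕ)}
    (hlt : ∀ h, IsPth (lt h) ∧ (lt h).head? = some (0, (h : ℕ)) ∧
      (lt h).getLast? = some (0, w + (k - 1 - (h : ℕ))) ∧ ∀ v ∈ lt h, v ∈ rect 0 0 k (2 * w))
    (hltd : ∀ h h', h ≠ h' → (lt h).Disjoint (lt h')) (hk : 1 ≤ k) (hkw : 2 * k ≤ w)
    (hm : (T + 1) * w ≤ m) (hY : Y + 2 ≤ T)
    (hs : Sta k q (rect x y m m) τ g (Ro x y k w (T * w) (Y * w) (T * w)) (Po T T Y)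
      (fun h => (x + k - 1, y + Y * w + (k - 1 - (h : ℕ))))) :
    Sta k q (rect x y m m) τ g (Re x y k w ((Y + 1) * w) 0) (Pe T 0 (Y + 1))
      (fun h => (x + k, y + (Y + 1) * w + (h : ℕ))) := by
  have hYT : (Y + 2) * w ≤ T * w := Nat.mul_le_mul_right _ hY
  rw [add_mul] at hYT
  rw [add_mul, one_mul] at hm ⊢
  have key := hs.turnChart hlt hltd (σ := Fin.rev) Fin.rev_injective
    (φ := fun v => (x + (k - 1 - v.1), y + Y * w + v.2))
    (Q := rect x (y + Y * w) k (2 * w))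
    (E' := fun h => (x + k, y + (Y * w + w) + (h : ℕ)))
    (by
      rintro u ⟨_, h1, _, _⟩ v ⟨_, h2, _, _⟩ h
      exact adj_mirror (by omega) (by omega) h)
    (by
      rintro ⟨u1, u2⟩ ⟨_, h1, _, _⟩ ⟨v1, v2⟩ ⟨_, h2, _, _⟩ h
      simp only [Prod.mk.injEq] at h h1 h2 ⊢
      omega)
    (by
      rintro ⟨u1, u2⟩ ⟨h1, h2, h3, h4⟩
      simp only at h1 h2 h3 h4
      exact ⟨by simp only; omega, by simp only; omega, by simp only; omega, by simp only; omega⟩)
    (by
      rintro ⟨v1, v2⟩ h ⟨h1, h2, h3, h4⟩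
      simp only at h1 h2 h3 h4
      rcases h with h | ⟨h, h'⟩ <;> simp only at h
      · omega
      · simp only at h'
        omega)
    (rect_sub (by omega) (by omega) (by omega) (by omega))
    (by
      intro h
      have h1 := Fin.val_rev h
      have h2 := h.2
      simp only [Prod.mk.injEq]
      omega)
    (by
      intro h
      have h1 := Fin.val_rev h
      have h2 := h.2
      unfold adj
      simp only
      omega)
  refine (key.mono ?_).congr ?_ ?_
  · rintro ⟨v1, v2⟩ (h | ⟨h1, h2, h3, h4⟩)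
    · rcases h with h | ⟨h, h'⟩ <;> simp only at h
      · exact Or.inl (by simp only; omega)
      · exact Or.inl (by simp only; omega)
    · simp only at h1 h2 h3 h4
      rcases Nat.lt_or_ge v2 (y + (Y * w + w)) with h5 | h5
      · exact Or.inl h5
      · exact Or.inr ⟨by simp only; omega, by simp only; omega⟩
  · ext ⟨c1, c2⟩
    simp only [Pe, Po, Set.mem_ofPred_eq]
    omega
  · intro h
    rfl

/-- one cell of an even band -/
lemma cell_even {T X Y o o' s : ℕ} {lc : Fin k → List (ℕ × ℕ)}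
    (hlc : ∀ h, IsPth (lc h) ∧ (lc h).head? = some (0, (h : ℕ)) ∧
      (lc h).getLast? = some (w - 1, (h : ℕ)) ∧ ∀ v ∈ lc h, v ∈ rect 0 0 w w)
    (hlcd : ∀ h h', h ≠ h' → (lc h).Disjoint (lc h'))
    (hlc1 : ∀ h, g (X, Y) ≠ some h → ∀ v ∈ lc h, v ∉ rect o o' s s)
    (hlc2 : ∀ h, g (X, Y) = some h → ∃ p z p', lc h = p ++ z ++ p' ∧ Zone q z (rect o o' s s))
    (hk : 1 ≤ k) (hkw : 2 * k ≤ w) (ho : w = 2 * o + s) (ho' : o' + s ≤ w)
    (hm : (T + 1) * w ≤ m) (hX : X < T) (hY : Y < T)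
    (hs : Sta k q (rect x y m m) (tl x y w (k + o) o' s) g (Re x y k w (Y * w) (X * w))
      (Pe T X Y) (fun h => (x + k + X * w, y + Y * w + (h : ℕ)))) :
    Sta k q (rect x y m m) (tl x y w (k + o) o' s) g (Re x y k w (Y * w) ((X + 1) * w))
      (Pe T (X + 1) Y) (fun h => (x + k + (X + 1) * w, y + Y * w + (h : ℕ))) := by
  have hYT : (Y + 1) * w ≤ T * w := Nat.mul_le_mul_right _ hY
  have hXT : (X + 1) * w ≤ T * w := Nat.mul_le_mul_right _ hX
  rw [add_mul, one_mul] at hm hYT hXT ⊢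
  have key := hs.cellChart (c := (X, Y)) hlc hlcd hlc1 hlc2 (σ := id) Function.injective_id
    (fun h => Iff.rfl)
    (φ := fun v => (x + k + X * w + v.1, y + Y * w + v.2))
    (Q := rect (x + k + X * w) (y + Y * w) w w)
    (E' := fun h => (x + k + (X * w + w), y + Y * w + (h : ℕ)))
    (fun u _ v _ h => adj_shift h)
    (by
      rintro ⟨u1, u2⟩ _ ⟨v1, v2⟩ _ h
      simp only [Prod.mk.injEq] at h ⊢
      omega)
    (by
      rintro ⟨u1, u2⟩ ⟨h1, h2, h3, h4⟩
      simp only at h1 h2 h3 h4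
      exact ⟨by simp only; omega, by simp only; omega, by simp only; omega, by simp only; omega⟩)
    (by
      rintro ⟨v1, v2⟩ h ⟨h1, h2, h3, h4⟩
      simp only at h1 h2 h3 h4
      rcases h with h | ⟨h, h'⟩ <;> simp only at h
      · omega
      · simp only at h'
        omega)
    (rect_sub (by omega) (by omega) (by omega) (by omega))
    (by intro h; simp)
    (by
      intro h
      refine Or.inr ⟨rfl, Or.inl ?_⟩
      simp only
      omega)
    (by
      simp only [Pe, Set.mem_ofPred_eq]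
      omega)
    (rect_sub (by simp only; omega) (by simp only; omega) (by simp only; omega)
      (by simp only; omega))
    (by
      rintro ⟨v1, v2⟩ ⟨h1, h2, h3, h4⟩
      simp only at h1 h2 h3 h4
      refine ⟨(v1 - (x + k + X * w), v2 - (y + Y * w)), ⟨?_, ?_, ?_, ?_⟩, ?_⟩ <;> simp only
      · omega
      · omega
      · omega
      · omega
      · rw [Prod.mk.injEq]
        omega)
    (by
      rintro ⟨u1, u2⟩ _ ⟨h1, h2, h3, h4⟩
      simp only at h1 h2 h3 h4
      exact ⟨by simp only; omega, by simp only; omega, by simp only; omega, by simp only; omega⟩)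
  refine (key.mono ?_).congr ?_ ?_
  · rintro ⟨v1, v2⟩ (h | ⟨h1, h2, h3, h4⟩)
    · rcases h with h | ⟨h, h'⟩ <;> simp only at h
      · exact Or.inl (by simp only; omega)
      · simp only at h'
        exact Or.inr ⟨by simp only; omega, by simp only; omega⟩
    · simp only at h1 h2 h3 h4
      exact Or.inr ⟨by simp only; omega, by simp only; omega⟩
  · ext ⟨c1, c2⟩
    simp only [Pe, Set.mem_insert_iff, Prod.mk.injEq, Set.mem_ofPred_eq]
    omega
  · intro h
    rfl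

/-- one cell of an odd band -/
lemma cell_odd {T X Y o o' s : ℕ} {lc : Fin k → List (ℕ × ℕ)}
    (hlc : ∀ h, IsPth (lc h) ∧ (lc h).head? = some (0, (h : ℕ)) ∧
      (lc h).getLast? = some (w - 1, (h : ℕ)) ∧ ∀ v ∈ lc h, v ∈ rect 0 0 w w)
    (hlcd : ∀ h h', h ≠ h' → (lc h).Disjoint (lc h'))
    (hlc1 : ∀ h, (g (T - 1 - X, Y)).map Fin.rev ≠ some h → ∀ v ∈ lc h, v ∉ rect o o' s s)
    (hlc2 : ∀ h, (g (T - 1 - X, Y)).map Fin.rev = some h →
      ∃ p z p', lc h = p ++ z ++ p' ∧ Zone q z (rect o o' s s))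
    (hk : 1 ≤ k) (hkw : 2 * k ≤ w) (ho : w = 2 * o + s) (ho' : o' + s ≤ w)
    (hm : (T + 1) * w ≤ m) (hX : X < T) (hY : Y < T)
    (hs : Sta k q (rect x y m m) (tl x y w (k + o) o' s) g (Ro x y k w (T * w) (Y * w) (X * w))
      (Po T X Y) (fun h => (x + k + (T - X) * w - 1, y + Y * w + (k - 1 - (h : ℕ))))) :
    Sta k q (rect x y m m) (tl x y w (k + o) o' s) g
      (Ro x y k w (T * w) (Y * w) ((X + 1) * w)) (Po T (X + 1) Y)
      (fun h => (x + k + (T - (X + 1)) * w - 1, y + Y * w + (k - 1 - (h : ℕ)))) := by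
  have hYT : (Y + 1) * w ≤ T * w := Nat.mul_le_mul_right _ hY
  obtain ⟨Z, hZ⟩ : ∃ Z, T = Z + X + 1 := ⟨T - 1 - X, by omega⟩
  have e1 : T - 1 - X = Z := by omega
  have e2 : T - X = Z + 1 := by omega
  have e3 : T - (X + 1) = Z := by omega
  have e4 : T * w = Z * w + X * w + w := by rw [hZ]; ring
  rw [e2] at hs
  rw [e1] at hlc1 hlc2
  rw [e3]
  rw [add_mul, one_mul] at hm hYT hs
  rw [add_mul, one_mul]
  have key := hs.cellChart (c := (Z, Y)) hlc hlcd hlc1 hlc2 (σ := Fin.rev) Fin.rev_injective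
    (by
      intro h
      constructor
      · intro h1
        rw [h1]
        rfl
      · intro h1
        rw [Option.map_eq_some_iff] at h1
        obtain ⟨h', h2, h3⟩ := h1
        rw [h2, Fin.rev_injective h3])
    (φ := fun v => (x + k + Z * w + (w - 1 - v.1), y + Y * w + v.2))
    (Q := rect (x + k + Z * w) (y + Y * w) w w)
    (E' := fun h => (x + k + Z * w - 1, y + Y * w + (k - 1 - (h : ℕ))))
    (by
      rintro u ⟨_, h1, _, _⟩ v ⟨_, h2, _, _⟩ h
      exact adj_mirror (by omega) (by omega) h)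
    (by
      rintro ⟨u1, u2⟩ ⟨_, h1, _, _⟩ ⟨v1, v2⟩ ⟨_, h2, _, _⟩ h
      simp only [Prod.mk.injEq] at h h1 h2 ⊢
      omega)
    (by
      rintro ⟨u1, u2⟩ ⟨h1, h2, h3, h4⟩
      simp only at h1 h2 h3 h4
      exact ⟨by simp only; omega, by simp only; omega, by simp only; omega, by simp only; omega⟩)
    (by
      rintro ⟨v1, v2⟩ h ⟨h1, h2, h3, h4⟩
      simp only at h1 h2 h3 h4
      rcases h with h | ⟨h, h'⟩ <;> simp only at h
      · omega
      · simp only at h'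
        omega)
    (rect_sub (by omega) (by omega) (by omega) (by omega))
    (by
      intro h
      have h1 := Fin.val_rev h
      have h2 := h.2
      simp only [Prod.mk.injEq]
      omega)
    (by
      intro h
      have h1 := Fin.val_rev h
      have h2 := h.2
      unfold adj
      simp only
      omega)
    (by
      simp only [Po, Set.mem_ofPred_eq]
      omega)
    (rect_sub (by simp only; omega) (by simp only; omega) (by simp only; omega)
      (by simp only; omega))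
    (by
      rintro ⟨v1, v2⟩ ⟨h1, h2, h3, h4⟩
      simp only at h1 h2 h3 h4
      refine ⟨(w - 1 - (v1 - (x + k + Z * w)), v2 - (y + Y * w)), ⟨?_, ?_, ?_, ?_⟩, ?_⟩ <;>
        simp only
      · omega
      · omega
      · omega
      · omega
      · rw [Prod.mk.injEq]
        omega)
    (by
      rintro ⟨u1, u2⟩ ⟨_, h0, _, _⟩ ⟨h1, h2, h3, h4⟩
      simp only at h0 h1 h2 h3 h4
      exact ⟨by simp only; omega, by simp only; omega, by simp only; omega, by simp only; omega⟩)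
  refine (key.mono ?_).congr ?_ ?_
  · rintro ⟨v1, v2⟩ (h | ⟨h1, h2, h3, h4⟩)
    · rcases h with h | ⟨h, h'⟩ <;> simp only at h
      · exact Or.inl (by simp only; omega)
      · simp only at h'
        exact Or.inr ⟨by simp only; omega, by simp only; omega⟩
    · simp only at h1 h2 h3 h4
      exact Or.inr ⟨by simp only; omega, by simp only; omega⟩
  · ext ⟨c1, c2⟩
    simp only [Po, Set.mem_insert_iff, Prod.mk.injEq, Set.mem_ofPred_eq]
    omega
  · intro h
    rfl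

end board

/-- a lane depends only on the first tiles -/
lemma Lane.congr_tiles {α : Type*} {S : Set α} {ends : α → Sym2 (ℕ × ℕ)} {W : Set (ℕ × ℕ)}
    {q N : ℕ} {τ τ' : ℕ → Set (ℕ × ℕ)} (h : Lane S ends W q N τ) (hτ : ∀ t < N, τ t = τ' t) :
    Lane S ends W q N τ' := by
  obtain ⟨pos, el, L, a, R, h1, h2, h3, h4, h5⟩ := h
  refine ⟨pos, el, L, a, R, h1, h2, h3, h4, ?_⟩
  intro t ht
  rw [← hτ t ht]
  exact h5 t ht

/-- **Row GEO-C.** -/
theorem lanes_of (k q s : ℕ) (hk : 1 ≤ k) (hq : 1 ≤ q) (hc : CellStmt k q s)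
    (ht : ∀ w, k ≤ w → 1 ≤ w → TurnStmt k w) (hl : ListStmt.{u}) : LanesStmt.{u} k q s := by
  classical
  obtain ⟨w, o, o', ho, ho', hkw, hw, hcell⟩ := hc
  choose lc hlc hlcd hlc1 hlc2 using hcell
  obtain ⟨lt, hlt, hltd⟩ := ht w (by omega) hw
  have hsw : s < w := by
    by_contra hcon
    have h1 : o = 0 := by omega
    have h2 : o' = 0 := by omega
    have h3 : s = w := by omega
    obtain ⟨p, z, p', h4, h5⟩ := hlc2 (some ⟨0, hk⟩) ⟨0, hk⟩ rfl
    have hz : z ≠ [] := by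
      rintro rfl
      have := h5.2.1
      simp at this
    obtain ⟨v, z', rfl⟩ := List.exists_cons_of_ne_nil hz
    have h6 : v ∈ lc (some ⟨0, hk⟩) ⟨0, hk⟩ := by
      rw [h4]
      simp
    have h7 := (hlc (some ⟨0, hk⟩) ⟨0, hk⟩).2.2.2 v h6
    have h8 : v ∈ (v :: z').drop (2 * q) := h5.2.2 v (by rw [h1, h2, h3]; exact h7)
    have h9 : v ∈ z' := by
      obtain ⟨r, hr⟩ : ∃ r, 2 * q = r + 1 := ⟨2 * q - 1, by omega⟩
      rw [hr, List.drop_succ_cons] at h8
      exact List.mem_of_mem_drop h8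
    have h10 := (hlc (some ⟨0, hk⟩) ⟨0, hk⟩).1.2
    rw [h4] at h10
    have h11 : (v :: z').Nodup := by
      rw [List.nodup_append] at h10
      have := h10.1
      rw [List.nodup_append] at this
      exact this.2.1
    exact (List.nodup_cons.1 h11).1 h9
  refine ⟨w, k + o, o', hsw, by omega, by omega, ?_⟩
  intro α S ends x y m T hG hm g
  set B := rect x y m m with hB
  set τ := tl x y w (k + o) o' s with hτ
  -- the even bands
  have even : ∀ Y < T, Sta k q B τ g (Re x y k w (Y * w) 0) (Pe T 0 Y)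
      (fun h => (x + k, y + Y * w + (h : ℕ))) → ∀ X ≤ T,
      Sta k q B τ g (Re x y k w (Y * w) (X * w)) (Pe T X Y)
      (fun h => (x + k + X * w, y + Y * w + (h : ℕ))) := by
    intro Y hY h0 X
    induction X with
    | zero =>
      intro _
      simp only [Nat.zero_mul, Nat.add_zero]
      exact h0
    | succ X ih =>
      intro hX
      exact cell_even (hlc (g (X, Y))) (hlcd (g (X, Y))) (hlc1 (g (X, Y))) (hlc2 (g (X, Y)))
        hk hkw ho ho' hm hX hY (ih (by omega))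
  have odd : ∀ Y < T, Sta k q B τ g (Ro x y k w (T * w) (Y * w) 0) (Po T 0 Y)
      (fun h => (x + k + T * w - 1, y + Y * w + (k - 1 - (h : ℕ)))) → ∀ X ≤ T,
      Sta k q B τ g (Ro x y k w (T * w) (Y * w) (X * w)) (Po T X Y)
      (fun h => (x + k + (T - X) * w - 1, y + Y * w + (k - 1 - (h : ℕ)))) := by
    intro Y hY h0 X
    induction X with
    | zero =>
      intro _
      simp only [Nat.zero_mul, Nat.sub_zero]
      exact h0
    | succ X ih =>
      intro hX
      exact cell_odd (hlc _) (hlcd _) (hlc1 ((g (T - 1 - X, Y)).map Fin.rev))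
        (hlc2 ((g (T - 1 - X, Y)).map Fin.rev)) hk hkw ho ho' hm hX hY (ih (by omega))
  have main : ∀ Y < T, (Y % 2 = 0 → Sta k q B τ g (Re x y k w (Y * w) 0) (Pe T 0 Y)
      (fun h => (x + k, y + Y * w + (h : ℕ)))) ∧
      (Y % 2 = 1 → Sta k q B τ g (Ro x y k w (T * w) (Y * w) 0) (Po T 0 Y)
      (fun h => (x + k + T * w - 1, y + Y * w + (k - 1 - (h : ℕ))))) := by
    intro Y
    induction Y with
    | zero =>
      intro _
      refine ⟨fun _ => ?_, fun h => by omega⟩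
      have hP : ∀ c ∈ Pe T 0 0, False := by
        rintro ⟨c1, c2⟩ hc'
        simp only [Pe, Set.mem_ofPred_eq] at hc'
        omega
      refine ⟨fun c hc' => (hP c hc').elim, fun _ => [], fun _ => [], ?_, ?_, ?_, ?_, ?_, ?_, ?_⟩
      · intro h
        exact ⟨List.isChain_nil, List.nodup_nil⟩
      · intro h v hv
        exact absurd hv (by simp)
      · intro h v hv
        exact absurd hv (by simp)
      · intro h h' _ v hv
        exact absurd hv (by simp)
      · intro h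
        exact LaneL.nil _
      · intro h
        refine ⟨List.nodup_nil, fun c => ⟨fun hc' => absurd hc' (by simp), fun hc' => ?_⟩⟩
        exact (hP c hc'.1).elim
      · intro c hc'
        exact (hP c hc').elim
    | succ Y ih =>
      intro hY
      obtain ⟨h1, h2⟩ := ih (by omega)
      refine ⟨fun h => ?_, fun h => ?_⟩
      · have h3 := odd Y (by omega) (h2 (by omega)) T (le_refl _)
        simp only [Nat.sub_self, Nat.zero_mul, Nat.add_zero] at h3
        exact turn_left hlt hltd hk hkw hm (by omega) h3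
      · have h3 := even Y (by omega) (h1 (by omega)) T (le_refl _)
        exact turn_right hlt hltd hk hkw hm (by omega) h3
  have fin : ∃ (R : Set (ℕ × ℕ)) (E : Fin k → ℕ × ℕ),
      Sta k q B τ g R {c | c ∈ cells T} E := by
    have hcells : ∀ c : ℕ × ℕ, c ∈ cells T ↔ c.1 < T ∧ c.2 < T := by
      intro c
      unfold cells
      rw [Finset.mem_product, Finset.mem_range, Finset.mem_range]
    rcases Nat.eq_zero_or_pos T with hT | hT
    · have hP : ∀ c ∈ ({c | c ∈ cells T} : Set (ℕ × ℕ)), False := by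
        rintro c hc'
        have := (hcells c).1 hc'
        omega
      refine ⟨∅, fun _ => (0, 0), fun c hc' => (hP c hc').elim, fun _ => [], fun _ => [],
        ?_, ?_, ?_, ?_, ?_, ?_, ?_⟩
      · intro h
        exact ⟨List.isChain_nil, List.nodup_nil⟩
      · intro h v hv
        exact absurd hv (by simp)
      · intro h v hv
        exact absurd hv (by simp)
      · intro h h' _ v hv
        exact absurd hv (by simp)
      · intro h
        exact LaneL.nil _
      · intro h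
        refine ⟨List.nodup_nil, fun c => ⟨fun hc' => absurd hc' (by simp), fun hc' => ?_⟩⟩
        exact (hP c hc'.1).elim
      · intro c hc'
        exact (hP c hc').elim
    · obtain ⟨Y, hY⟩ : ∃ Y, T = Y + 1 := ⟨T - 1, by omega⟩
      obtain ⟨h1, h2⟩ := main Y (by omega)
      rcases Nat.mod_two_eq_zero_or_one Y with h3 | h3
      · refine ⟨_, _, (even Y (by omega) (h1 h3) T (le_refl _)).congr ?_ (fun _ => rfl)⟩
        ext ⟨c1, c2⟩
        simp only [Pe, Set.mem_ofPred_eq, hcells]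
        omega
      · refine ⟨_, _, (odd Y (by omega) (h2 h3) T (le_refl _)).congr ?_ (fun _ => rfl)⟩
        ext ⟨c1, c2⟩
        simp only [Po, Set.mem_ofPred_eq, hcells]
        omega
  obtain ⟨R, E, _, l, cs, h1, h2, h3, h4, h5, h6, h7⟩ := fin
  refine ⟨fun i => {v | v ∈ l i}, ?_, ?_, ?_⟩
  · intro i j hij
    rw [Set.disjoint_left]
    intro v hv hv'
    exact h4 i j hij hv hv'
  · intro c hc' hg i
    rw [Set.disjoint_left]
    intro v hv hv'
    exact h7 c hc' hg i v hv' hv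
  · intro i
    obtain ⟨h8, h9⟩ := h6 i
    refine ⟨(cs i).length, fun t => (cs i).getD t (0, 0), ⟨?_, ?_, ?_⟩, ?_⟩
    · intro t ht'
      have ht'' : t < (cs i).length := ht'
      simp only
      rw [List.getD_eq_getElem _ _ ht'']
      exact (h9 _).1 (List.getElem_mem ht'')
    · intro t ht' t' ht2 htt
      have ht'' : t < (cs i).length := ht'
      have ht3 : t' < (cs i).length := ht2
      simp only at htt
      rw [List.getD_eq_getElem _ _ ht'', List.getD_eq_getElem _ _ ht3] at htt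
      exact (List.Nodup.getElem_inj_iff h8).1 htt
    · intro c hc'
      obtain ⟨t, ht', hte⟩ := List.getElem_of_mem ((h9 c).2 hc')
      refine ⟨t, ht', ?_⟩
      simp only
      rw [List.getD_eq_getElem _ _ ht', hte]
    · intro N' hN'
      have h10 := hl hG (h1 i) (fun v hv => (h2 i v hv).2) hq (h5 i)
        (N' := N') (by rw [List.length_map]; exact hN')
      refine h10.congr_tiles ?_
      intro t ht'
      have ht'' : t < (cs i).length := by omega
      simp only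
      rw [List.getD_eq_getElem _ _ (by rw [List.length_map]; exact ht''),
        List.getD_eq_getElem _ _ ht'', List.getElem_map]

end BICS
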